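import Pool.Agent.MP_47ed89_co.h76.Design

/-!
For almost all prime powers `q` no nontrivial 5-design on the projective line over the field with
`q` elements has a block-transitive group inside `PΓL(2, q)`.
-/

set_option autoImplicit false

namespace Pool.Agent.Results.MP_47ed89_co.AlmostAllQ

open Finset Pool.Agent.MP_47ed89_co Pool.Agent.MP_47ed89_co.H76
open scoped LinearAlgebra.Projectivization

theorem result (ε : ℝ) (hε : 0 < ε) : ∃ Q₀ : ℕ, ∀ Q : ℕ, Q₀ ≤ Q →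
    (Set.ncard {q : ℕ | q ≤ Q ∧ ∃ (F : Type) (_ : Field F) (_ : Fintype F), Fintype.card F = q ∧
      ∃ (G : Subgroup (Equiv.Perm (ℙ F (Fin 2 → F)))) (k lam : ℕ)
        (B : Set (Finset (ℙ F (Fin 2 → F)))),
        (∀ σ ∈ G, IsPGammaL σ) ∧ 5 < k ∧ k < q + 1 ∧ 0 < lam ∧ (∀ b ∈ B, b.card = k) ∧
        (∀ T : Finset (ℙ F (Fin 2 → F)), T.card = 5 → {b ∈ B | T ⊆ b}.ncard = lam) ∧
        (∃ T : Finset (ℙ F (Fin 2 → F)), T.card = k ∧ T ∉ B) ∧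
        (∀ σ ∈ G, ∀ b ∈ B, b.map σ.toEmbedding ∈ B) ∧
        ∀ b₁ ∈ B, ∀ b₂ ∈ B, ∃ σ ∈ G, b₁.map σ.toEmbedding = b₂} : ℝ) ≤
      ε * Nat.primeCounting Q := by
  classical
  obtain ⟨Q₀, h⟩ := Filter.eventually_atTop.1 (count hε)
  refine ⟨Q₀, fun Q hQ => le_trans ?_ (h Q hQ)⟩
  rw [Nat.cast_le, ← Set.ncard_coe_finset]
  refine Set.ncard_le_ncard ?_ (finite_toSet _)
  rintro _ ⟨h1, F, _, _, rfl, G, k, l, B, hG, h5, hkv, hl, hk, hd, ⟨T, hT, hT'⟩, hinv, htr⟩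
  have : Finite (ℙ F (Fin 2 → F)) := Nat.finite_of_card_ne_zero (by rw [card_line]; omega)
  have : Fintype (ℙ F (Fin 2 → F)) := Fintype.ofFinite _
  lift B to Finset (Finset (ℙ F (Fin 2 → F))) using Set.toFinite B
  simp only [map_eq_image, mem_coe] at hk hinv htr hT'
  refine mem_coe.2 (mem_filter.2 ⟨mem_Icc.2 ⟨Fintype.card_pos, h1⟩, FiniteField.isPrimePow_card F,
    fun hq => dv hq hG hk h5 hkv hl (fun S hS => ?_) ⟨T, hT, hT'⟩ hinv htr⟩)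
  rw [← hd S hS, ← Set.ncard_coe_finset, coe_filter]
  rfl

end Pool.Agent.Results.MP_47ed89_co.AlmostAllQ
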