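import Pool.Agent.MP_47ed89_co.h99.Main

/-!
A nontrivial block-transitive 6-design has even index if its group is `AGL(d, 2)`, or lies between
`PSL(2, q)` and `PΓL(2, q)` with field automorphisms of order prime to the index, apart from one
family of field orders.
-/

set_option autoImplicit false

namespace Pool.Agent.Results.MP_47ed89_co.EvenIndex

open Pool.Agent.MP_47ed89_co Pool.Agent.MP_47ed89_co.H99
open scoped LinearAlgebra.Projectivization

theorem result (X : Type) [Fintype X] [DecidableEq X] (G : Subgroup (Equiv.Perm X)) (k lam : ℕ)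
    (hG : (∃ (F : Type) (_ : Field F) (_ : Fintype F) (e : X ≃ ℙ F (Fin 2 → F))
          (Φ : Subgroup (RingAut F)),
        (∀ σ : Equiv.Perm X, IsPSL (e.permCongr σ) → σ ∈ G) ∧
        (∀ σ ∈ G, ∃ φ ∈ Φ, ∃ A : Matrix (Fin 2) (Fin 2) F, A.det ≠ 0 ∧
          ∀ (v w : Fin 2 → F) (hv : v ≠ 0) (hw : w ≠ 0), w = A.mulVec (fun i => φ (v i)) →
            e.permCongr σ (Projectivization.mk F v hv) = Projectivization.mk F w hw) ∧
        Nat.Coprime lam (Nat.card Φ) ∧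
        ∀ r p a : ℕ, r ≤ 4 → p.Prime → 7 ≤ p → Fintype.card F = r ^ p ^ a →
          ¬ p ^ a ∣ Nat.card Φ) ∨
      ∃ (d : ℕ) (e : X ≃ (Fin d → ZMod 2)), ∀ σ : Equiv.Perm X, σ ∈ G ↔
        ∃ g : (Fin d → ZMod 2) ≃ᵃ[ZMod 2] (Fin d → ZMod 2), ∀ x, e (σ x) = g (e x))
    (h6 : 6 < k) (hkv : k < Fintype.card X) (hlam : 0 < lam)
    (B : Finset (Finset X)) (hk : ∀ b ∈ B, b.card = k)
    (hdesign : ∀ T : Finset X, T.card = 6 → (B.filter fun b => T ⊆ b).card = lam)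
    (hnontrivial : ∃ T : Finset X, T.card = k ∧ T ∉ B)
    (hinv : ∀ σ ∈ G, ∀ b ∈ B, b.image σ ∈ B)
    (htr : ∀ b₁ ∈ B, ∀ b₂ ∈ B, ∃ σ ∈ G, b₁.image σ = b₂) : Even lam := by
  rcases hG with ⟨F, _, _, e, Φ, h1, h2, h3, h4⟩ | ⟨d, e, hG⟩
  · refine proj_even e (fun σ hσ => ?_) h1 h3 h4 hk h6 hkv hlam hdesign hnontrivial hinv htr
    obtain ⟨φ, a1, A, a2⟩ := h2 σ hσ
    exact ⟨φ, a1, _, A, rfl, a2⟩
  · obtain ⟨a1, a2⟩ := aff_pow e hG hk h6 hkv hlam hdesign hnontrivial hinv htr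
    have a3 := Nat.pow_le_pow_left (show 3 ≤ d - 16 by omega) 2
    exact even_iff_two_dvd.2 ((dvd_pow_self 2 (by omega)).trans a2)

end Pool.Agent.Results.MP_47ed89_co.EvenIndex
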