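import Pool.Agent.MP_47ed89_co.h58.Proj
import Pool.Agent.MP_47ed89_co.h58.Affine

/-!
The number of points of a block-transitive 6-design whose group is a subgroup of `PΓL(2, q)` or
the group `AGL(d, 2)` is bounded in terms of the index.
-/

set_option autoImplicit false

namespace Pool.Agent.Results.MP_47ed89_co.LambdaBound

open Finset Pool.Agent.MP_47ed89_co Pool.Agent.MP_47ed89_co.H58
open scoped LinearAlgebra.Projectivization

lemma des_image {X Y : Type} [Fintype X] [DecidableEq X] [Fintype Y] [DecidableEq Y] (e : X ≃ Y)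
    {B : Finset (Finset X)} {t l : ℕ} (h : Des B t l) :
    Des (B.image fun b => b.image e) t l := by
  intro T hT
  rw [← h (T.image e.symm) (by rw [card_image_of_injective _ e.symm.injective, hT]),
    filter_image, card_image_of_injective _ (image_injective e.injective)]
  congr 1
  refine filter_congr fun b _ => ?_
  rw [image_subset_iff]
  refine forall₂_congr fun x _ => ?_
  rw [mem_image]
  exact ⟨fun ⟨y, h1, h2⟩ => by rwa [← h2, e.symm_apply_apply], fun h1 => ⟨_, h1, by simp⟩⟩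

theorem result (X : Type) [Fintype X] [DecidableEq X] (G : Subgroup (Equiv.Perm X))
    (hG : (∃ (F : Type) (_ : Field F) (_ : Fintype F) (e : X ≃ ℙ F (Fin 2 → F)),
        ∀ σ ∈ G, IsPGammaL (e.permCongr σ)) ∨
      ∃ (d : ℕ) (e : X ≃ (Fin d → ZMod 2)), ∀ σ : Equiv.Perm X, σ ∈ G ↔
        ∃ g : (Fin d → ZMod 2) ≃ᵃ[ZMod 2] (Fin d → ZMod 2), ∀ x, e (σ x) = g (e x))
    (k lam : ℕ) (h6 : 6 < k) (hkv : k < Fintype.card X) (hlam : 0 < lam)
    (B : Finset (Finset X)) (hk : ∀ b ∈ B, b.card = k)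
    (hdesign : ∀ T : Finset X, T.card = 6 → (B.filter fun b => T ⊆ b).card = lam)
    (hinv : ∀ σ ∈ G, ∀ b ∈ B, b.image σ ∈ B)
    (htr : ∀ b₁ ∈ B, ∀ b₂ ∈ B, ∃ σ ∈ G, b₁.image σ = b₂) :
    Fintype.card X ≤ 2 ^ 81 * lam ^ 5 * Nat.log 2 (Fintype.card X) ^ 7 := by
  classical
  have hL : 0 < Nat.log 2 (Fintype.card X) := Nat.log_pos one_lt_two (by omega)
  rcases hG with ⟨F, _, _, e, hG⟩ | ⟨d, e, hG⟩
  · have : Fintype (ℙ F (Fin 2 → F)) := Fintype.ofEquiv X e
    have hc : Fintype.card X = Fintype.card F + 1 := (Fintype.card_congr e).trans card_line'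
    have key : ∀ (σ : Equiv.Perm X) (b : Finset X),
        (b.image e).image (e.permCongrHom σ) = (b.image σ).image e := fun σ b => by
      rw [image_image, image_image]
      congr 1
      funext x
      simp
    have := (proj (G := G.map e.permCongrHom.toMonoidHom) (B := B.image fun b => b.image e)
      (k := k) (l := lam) ?_ ?_ h6 (hc ▸ hkv) hlam (des_image e hdesign) ?_ ?_).1
    · have a1 : Nat.log 2 (Fintype.card F) ≤ Nat.log 2 (Fintype.card X) :=
        Nat.log_mono_right (by omega)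
      have a2 : 2 ^ 80 * lam ^ 5 * Nat.log 2 (Fintype.card F) ^ 7 ≤
        2 ^ 80 * (lam ^ 5 * Nat.log 2 (Fintype.card X) ^ 7) := by rw [← mul_assoc]; gcongr
      have a3 : 0 < lam ^ 5 * Nat.log 2 (Fintype.card X) ^ 7 := by positivity
      rw [mul_assoc]
      omega
    · rintro _ ⟨σ, hσ, rfl⟩
      exact hG σ hσ
    · simp only [mem_image]
      rintro _ ⟨b, hb, rfl⟩
      rw [card_image_of_injective _ e.injective, hk b hb]
    · rintro _ ⟨σ, hσ, rfl⟩ c hc
      obtain ⟨b, hb, rfl⟩ := mem_image.1 hc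
      exact mem_image.2 ⟨_, hinv σ hσ b hb, (key σ b).symm⟩
    · intro c₁ h₁ c₂ h₂
      obtain ⟨b₁, hb₁, rfl⟩ := mem_image.1 h₁
      obtain ⟨b₂, hb₂, rfl⟩ := mem_image.1 h₂
      obtain ⟨σ, hσ, rfl⟩ := htr b₁ hb₁ b₂ hb₂
      exact ⟨_, ⟨σ, hσ, rfl⟩, key σ b₁⟩
  · have hc : Fintype.card X = Fintype.card (Fin d → ZMod 2) := Fintype.card_congr e
    have a1 : lam ^ 2 ≤ lam ^ 5 * Nat.log 2 (Fintype.card X) ^ 7 :=
      (Nat.pow_le_pow_right hlam (by norm_num)).trans (Nat.le_mul_of_pos_right _ (by positivity))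
    have a2 : 0 < lam ^ 2 := by positivity
    rw [mul_assoc]
    rcases le_or_gt 5 d with h5 | h5
    · have key : ∀ (σ : Equiv.Perm X) (g : (Fin d → ZMod 2) ≃ᵃ[ZMod 2] (Fin d → ZMod 2)),
          (∀ x, e (σ x) = g (e x)) → ∀ b : Finset X,
          (b.image e).image g = (b.image σ).image e := fun σ g h b => by
        rw [image_image, image_image]
        congr 1
        funext x
        exact (h x).symm
      have := affine (V := Fin d → ZMod 2) (B := B.image fun b => b.image e) (k := k) (l := lam)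
        (by simpa using h5) ?_ h6 (hc ▸ hkv) hlam (des_image e hdesign) ?_ ?_
      · omega
      · simp only [mem_image]
        rintro _ ⟨b, hb, rfl⟩
        rw [card_image_of_injective _ e.injective, hk b hb]
      · intro g c hc
        obtain ⟨b, hb, rfl⟩ := mem_image.1 hc
        have h : ∀ x, e (e.symm.permCongr g.toEquiv x) = g (e x) := fun x => by simp
        exact mem_image.2 ⟨_, hinv _ ((hG _).2 ⟨g, h⟩) b hb, (key _ g h b).symm⟩
      · intro c₁ h₁ c₂ h₂
        obtain ⟨b₁, hb₁, rfl⟩ := mem_image.1 h₁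
        obtain ⟨b₂, hb₂, rfl⟩ := mem_image.1 h₂
        obtain ⟨σ, hσ, rfl⟩ := htr b₁ hb₁ b₂ hb₂
        obtain ⟨g, h⟩ := (hG σ).1 hσ
        exact ⟨g, key σ g h b₁⟩
    · have a3 : Fintype.card X ≤ 2 ^ 4 := by
        rw [hc, Fintype.card_fun, ZMod.card, Fintype.card_fin]
        exact Nat.pow_le_pow_right two_pos (by omega)
      omega

end Pool.Agent.Results.MP_47ed89_co.LambdaBound
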