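import Mathlib
import Pool.Agent.MP_47ed89_co.Ineq

/-!
No nontrivial Steiner 6-design on the projective line over a finite field admits a
block-transitive group between `PSL(2, q)` and `PΓL(2, q)`.
-/

set_option autoImplicit false

namespace Pool.Agent.Results.MP_47ed89_co.SteinerPGammaL

open Finset Pool.Agent.MP_47ed89_co
open scoped LinearAlgebra.Projectivization

theorem result (F : Type) [Field F] [Fintype F]
    (G : Subgroup (Equiv.Perm (ℙ F (Fin 2 → F))))
    (hPSL : ∀ σ, IsPSL σ → σ ∈ G) (hPGammaL : ∀ σ ∈ G, IsPGammaL σ)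
    (k : ℕ) (h6 : 6 < k) (hkv : k < Fintype.card F + 1)
    (B : Set (Finset (ℙ F (Fin 2 → F)))) (hk : ∀ b ∈ B, b.card = k)
    (hdesign : ∀ T : Finset (ℙ F (Fin 2 → F)), T.card = 6 → ∃! b, b ∈ B ∧ T ⊆ b)
    (hinv : ∀ σ ∈ G, ∀ b ∈ B, b.map σ.toEmbedding ∈ B) :
    ¬ ∀ b₁ ∈ B, ∀ b₂ ∈ B, ∃ σ ∈ G, b₁.map σ.toEmbedding = b₂ := by
  classical
  intro htr
  have : Fintype (ℙ F (Fin 2 → F)) := Fintype.ofFinite _
  have hcard : Fintype.card (ℙ F (Fin 2 → F)) = Fintype.card F + 1 := by
    rw [← Nat.card_eq_fintype_card, card_line]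
  set q := Fintype.card F with hq
  set B' : Finset (Finset (ℙ F (Fin 2 → F))) := (Set.toFinite B).toFinset with hB'
  have hmem : ∀ b, b ∈ B' ↔ b ∈ B := fun b => Set.Finite.mem_toFinset _
  have hk' : ∀ b ∈ B', b.card = k := fun b hb => hk b ((hmem b).mp hb)
  have hinv' : ∀ σ ∈ G, ∀ b ∈ B', b.image σ ∈ B' := by
    intro σ hσ b hb
    have := hinv σ hσ b ((hmem b).mp hb)
    rw [map_eq_image] at this
    exact (hmem _).mpr this
  have htr' : ∀ b₁ ∈ B', ∀ b₂ ∈ B', ∃ σ ∈ G, b₁.image σ = b₂ := by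
    intro b₁ h₁ b₂ h₂
    obtain ⟨σ, hσ, h⟩ := htr b₁ ((hmem _).mp h₁) b₂ ((hmem _).mp h₂)
    rw [map_eq_image] at h
    exact ⟨σ, hσ, h⟩
  have hd : ∀ T : Finset (ℙ F (Fin 2 → F)), T.card = 6 →
      (B'.filter (fun b => T ⊆ b)).card = 1 := by
    intro T hT
    obtain ⟨b, hb, hu⟩ := hdesign T hT
    rw [card_eq_one]
    refine ⟨b, eq_singleton_iff_unique_mem.mpr ⟨mem_filter.mpr ⟨(hmem b).mpr hb.1, hb.2⟩, ?_⟩⟩
    intro c hc
    exact hu c ⟨(hmem c).mp (mem_filter.mp hc).1, (mem_filter.mp hc).2⟩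
  have hb := card_mul_choose B' k 6 1 hk' hd
  rw [hcard, mul_one] at hb
  have hne : B'.Nonempty := by
    rw [← card_pos]
    by_contra h0
    rw [show B'.card = 0 by omega, zero_mul] at hb
    exact absurd hb.symm (Nat.choose_pos (by omega)).ne'
  obtain ⟨r, hr1, hr2⟩ := steiner_bound B' k hk' h6 (by rw [hcard]; exact hkv) hd
  rw [hcard, show q + 1 - 5 = q - 4 by omega] at hr1
  have hkq : (k - 4) * (k - 5) ≤ q - 4 := by rw [hr1]; gcongr
  obtain ⟨s, g, hG, hs, hg⟩ := card_subgroup G hPGammaL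
  have hs2 : 2 ^ s ≤ q := (Nat.pow_le_pow_right (by norm_num) hs).trans card_aut_le
  have hGpos : 0 < Nat.card G := Nat.card_pos
  have hs0 : 0 < s := by
    rcases Nat.eq_zero_or_pos s with h | h
    · rw [hG, h, zero_mul] at hGpos; exact absurd hGpos (lt_irrefl _)
    · exact h
  have hq7 : 7 ≤ q := by omega
  by_cases hq' : 1936 ≤ q
  · have h1 := main_ineq G hPSL B' k hk' hinv' htr' hne (fun T hT => by rw [hd T hT]; exact odd_one)
    have h2 := large_case q k s hq' hs2 hkq
    have h3 : g ≤ (q + 1) * q * (q - 1) := Nat.le_of_dvd (by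
      have : 0 < q - 1 := by omega
      positivity) hg
    have h4 : 0 < 2 * B'.card * (k * (k - 2) * (k - 4)) := by
      have := card_pos.mpr hne
      have : 0 < k - 2 := by omega
      have : 0 < k - 4 := by omega
      positivity
    rw [← hq, hG] at h1
    have h5 : 2 * (s * g) * (k * (k - 2) * (k - 4))
        ≤ q * (q - 1) * ((q - 1) * (q - 3) * (q - 5)) := by
      calc 2 * (s * g) * (k * (k - 2) * (k - 4))
          ≤ 2 * (s * ((q + 1) * q * (q - 1))) * (k * (k - 2) * (k - 4)) := by gcongr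
        _ = q * (q - 1) * (2 * s * (q + 1) * (k * (k - 2) * (k - 4))) := by ring
        _ ≤ _ := by gcongr
    omega
  · obtain ⟨b, hb0⟩ := hne
    have h1 : B'.card ∣ s * ((q + 1) * q * (q - 1)) :=
      (Dvd.intro _ (card_mul_stab G B' hinv' htr' b hb0)).trans (hG ▸ Nat.mul_dvd_mul_left s hg)
    have h2 : B'.card * (k * (k - 1) * (k - 2) * (k - 3) * (k - 4) * (k - 5))
        = ((q + 1) * q * (q - 1)) * ((q - 2) * (q - 3) * (q - 4)) := by
      have e1 := Nat.descFactorial_eq_factorial_mul_choose k 6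
      have e2 := Nat.descFactorial_eq_factorial_mul_choose (q + 1) 6
      rw [← hb] at e2
      simp only [Nat.descFactorial_succ, Nat.descFactorial_zero,
        Nat.sub_zero, Nat.add_sub_cancel, mul_one] at e1 e2
      rw [show q + 1 - 5 = q - 4 by omega, show q + 1 - 4 = q - 3 by omega,
        show q + 1 - 3 = q - 2 by omega, show q + 1 - 2 = q - 1 by omega] at e2
      calc B'.card * (k * (k - 1) * (k - 2) * (k - 3) * (k - 4) * (k - 5))
          = B'.card * ((k - 5) * ((k - 4) * ((k - 3) * ((k - 2) * ((k - 1) * k))))) := by ring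
        _ = Nat.factorial 6 * (B'.card * k.choose 6) := by rw [e1]; ring
        _ = _ := by rw [← e2]; ring
    have h3 : (q - 2) * (q - 3) * (q - 4)
        ∣ s * (k * (k - 1) * (k - 2) * (k - 3) * (k - 4) * (k - 5)) := by
      have hpos : 0 < (q + 1) * q * (q - 1) := by
        have : 0 < q - 1 := by omega
        positivity
      apply Nat.dvd_of_mul_dvd_mul_left hpos
      rw [← h2]
      obtain ⟨c, hc⟩ := h1
      exact ⟨c, by rw [mul_left_comm _ s, ← mul_assoc, hc]; ring⟩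
    have h4 := small_case q k s (by omega) hq7 h6 hs0 hs2 (Dvd.intro_left r hr1.symm) hkq h3
    have h5 : IsPrimePow q := FiniteField.isPrimePow_card F
    rcases h4 with h | h | h | h <;> rw [h] at h5 <;> revert h5 <;> decide

end Pool.Agent.Results.MP_47ed89_co.SteinerPGammaL
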